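import Pool.Agent.R552.Circ.Defs

/-!
# A combinatorial description of `χ_c < 3`
-/

namespace Pool.Agent.R552.Circ

/-- `x` and `y` (colour modulo three, rank the quotient by three) are compatible: the colours
differ and the rank goes up from each colour to the next one. -/
def rel (x y : ℕ) : Prop :=
  x % 3 ≠ y % 3 ∧ (y % 3 = (x + 1) % 3 → x / 3 < y / 3) ∧ (x % 3 = (y + 1) % 3 → y / 3 < x / 3)

theorem rel_symm {x y : ℕ} (h : rel x y) : rel y x := ⟨h.1.symm, h.2.2, h.2.1⟩

/-- A colouring with three colours and a rank. -/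
def Num3 {V : Type} (G : SimpleGraph V) (f : V → ℕ) : Prop := ∀ u v, G.Adj u v → rel (f u) (f v)

theorem num3_of_circ {V : Type} [Fintype V] {G : SimpleGraph V} {p q : ℕ} {c : V → ℕ}
    (hc : IsCircularColouring G p q c) (hq : 1 ≤ q) (hp : p < 3 * q) :
    ∃ f : V → ℕ, (∀ v, f v < 3 * Fintype.card V) ∧ Num3 G f := by
  classical
  let Ψ : V → ℕ := fun v => 3 * (c v % q) + c v / q
  have hlt : ∀ v, c v / q < 3 := by
    intro v
    rw [Nat.div_lt_iff_lt_mul (by omega)]
    exact (hc.1 v).trans hp
  refine ⟨fun v => 3 * (Finset.univ.filter (fun u => Ψ u < Ψ v)).card + c v / q, ?_, ?_⟩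
  · intro v
    have h1 : (Finset.univ.filter (fun u => Ψ u < Ψ v)).card < Fintype.card V := by
      apply Finset.card_lt_card
      rw [Finset.ssubset_univ_iff]
      intro h
      have : v ∈ Finset.univ.filter (fun u => Ψ u < Ψ v) := by rw [h]; exact Finset.mem_univ _
      simp at this
    have h2 := hlt v
    show 3 * _ + c v / q < _
    omega
  · have key : ∀ u v, G.Adj u v → c u / q ≠ c v / q ∧
        (c v / q = (c u / q + 1) % 3 → Ψ u < Ψ v) := by
      intro u v huv
      obtain ⟨h1, h2⟩ := hc.2 u v huv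
      have ha := hlt u
      have hb := hlt v
      have hu := Nat.div_add_mod (c u) q
      have hv := Nat.div_add_mod (c v) q
      have hru := Nat.mod_lt (c u) (show q > 0 by omega)
      have hrv := Nat.mod_lt (c v) (show q > 0 by omega)
      simp only [Ψ]
      generalize c u / q = a at *
      generalize c v / q = b at *
      generalize c u % q = r at *
      generalize c v % q = s at *
      rw [le_abs] at h1
      rw [abs_le] at h2
      have e : ∀ x : ℕ, x < 3 → x = 0 ∨ x = 1 ∨ x = 2 := by omega
      rcases e a ha with rfl | rfl | rfl <;> rcases e b hb with rfl | rfl | rfl <;> omega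
    have mono : ∀ u v, Ψ u < Ψ v →
        (Finset.univ.filter (fun w => Ψ w < Ψ u)).card <
          (Finset.univ.filter (fun w => Ψ w < Ψ v)).card := by
      intro u v h
      apply Finset.card_lt_card
      refine ⟨fun w hw => ?_, fun hcon => ?_⟩
      · simp only [Finset.mem_filter, Finset.mem_univ, true_and] at hw ⊢
        exact hw.trans h
      · have h3 : u ∈ Finset.univ.filter (fun w => Ψ w < Ψ v) := by simpa using h
        have := hcon h3
        simp at this
    have key2 : ∀ u v, G.Adj u v →
        (3 * (Finset.univ.filter (fun w => Ψ w < Ψ u)).card + c u / q) % 3 ≠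
          (3 * (Finset.univ.filter (fun w => Ψ w < Ψ v)).card + c v / q) % 3 ∧
        ((3 * (Finset.univ.filter (fun w => Ψ w < Ψ v)).card + c v / q) % 3 =
          ((3 * (Finset.univ.filter (fun w => Ψ w < Ψ u)).card + c u / q) + 1) % 3 →
        (3 * (Finset.univ.filter (fun w => Ψ w < Ψ u)).card + c u / q) / 3 <
          (3 * (Finset.univ.filter (fun w => Ψ w < Ψ v)).card + c v / q) / 3) := by
      intro u v huv
      obtain ⟨h1, h2⟩ := key u v huv
      have ha := hlt u
      have hb := hlt v
      have hm := mono u v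
      generalize (Finset.univ.filter (fun w => Ψ w < Ψ u)).card = A at *
      generalize (Finset.univ.filter (fun w => Ψ w < Ψ v)).card = B at *
      generalize c u / q = a at *
      generalize c v / q = b at *
      constructor
      · omega
      · intro h
        have h3 : b = (a + 1) % 3 := by omega
        have := hm (h2 h3)
        omega
    intro u v huv
    exact ⟨(key2 u v huv).1, (key2 u v huv).2, (key2 v u huv.symm).2⟩

theorem circ_of_num3 {V : Type} [Finite V] {G : SimpleGraph V} {f : V → ℕ} (hf : Num3 G f) :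
    ∃ (q : ℕ) (c : V → ℕ), 1 ≤ q ∧ IsCircularColouring G (3 * q - 1) q c := by
  classical
  have := Fintype.ofFinite V
  obtain ⟨B, hB⟩ : ∃ B, ∀ v, f v / 3 < B := by
    refine ⟨(Finset.univ.sup fun v => f v / 3) + 1, fun v => ?_⟩
    have := Finset.le_sup (f := fun v => f v / 3) (Finset.mem_univ v)
    omega
  refine ⟨B + 1, fun v => (f v % 3) * (B + 1) + f v / 3, by omega, ?_, ?_⟩
  · intro v
    have h1 := hB v
    have h2 : f v % 3 < 3 := Nat.mod_lt _ (by omega)
    beta_reduce
    generalize f v % 3 = a at *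
    generalize f v / 3 = b at *
    have e : a = 0 ∨ a = 1 ∨ a = 2 := by omega
    rcases e with rfl | rfl | rfl <;> omega
  · intro u v huv
    obtain ⟨h1, h2, h3⟩ := hf u v huv
    have b1 := hB u
    have b2 := hB v
    have m1 : f u % 3 < 3 := Nat.mod_lt _ (by omega)
    have m2 : f v % 3 < 3 := Nat.mod_lt _ (by omega)
    have e1 : (f u + 1) % 3 = (f u % 3 + 1) % 3 := by omega
    have e2 : (f v + 1) % 3 = (f v % 3 + 1) % 3 := by omega
    rw [e1] at h2
    rw [e2] at h3
    beta_reduce
    generalize f u % 3 = a at *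
    generalize f u / 3 = r at *
    generalize f v % 3 = b at *
    generalize f v / 3 = s at *
    have e : ∀ x : ℕ, x < 3 → x = 0 ∨ x = 1 ∨ x = 2 := by omega
    simp only [le_abs, abs_le]
    push_cast
    rcases e a m1 with rfl | rfl | rfl <;> rcases e b m2 with rfl | rfl | rfl <;>
      (try simp at h1 h2 h3) <;> omega

theorem circ_lt_three_iff {V : Type} [Fintype V] (G : SimpleGraph V) :
    circularChromaticNumber G < 3 ↔ ∃ f : V → ℕ, (∀ v, f v < 3 * Fintype.card V) ∧ Num3 G f := by
  classical
  constructor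
  · intro h
    have hne : {x : ℝ | ∃ p q : ℕ, 2 ≤ 2 * q ∧ 2 * q ≤ p ∧ (∃ c, IsCircularColouring G p q c) ∧
        x = (p : ℝ) / q}.Nonempty := by
      refine ⟨_, Fintype.card V + 2, 1, by omega, by omega,
        ⟨fun v => (Fintype.equivFin V v : ℕ), fun v => ?_, fun u v huv => ?_⟩, rfl⟩
      · have := (Fintype.equivFin V v).isLt
        beta_reduce
        omega
      · have h1 := (Fintype.equivFin V v).isLt
        have h2 := (Fintype.equivFin V u).isLt
        have h3 : (Fintype.equivFin V u : ℕ) ≠ (Fintype.equivFin V v : ℕ) := by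
          intro h
          exact huv.ne ((Fintype.equivFin V).injective (Fin.ext h))
        rw [le_abs, abs_le]
        push_cast
        beta_reduce
        omega
    obtain ⟨x, ⟨p, q, hq, hpq, ⟨c, hc⟩, rfl⟩, hx⟩ := exists_lt_of_csInf_lt hne h
    refine num3_of_circ hc (by omega) ?_
    have hq' : (0 : ℝ) < q := by
      have : 0 < q := by omega
      exact_mod_cast this
    rw [div_lt_iff₀ hq'] at hx
    exact_mod_cast hx
  · rintro ⟨f, _, hf⟩
    obtain ⟨q, c, hq, hc⟩ := circ_of_num3 hf
    have hq' : (0 : ℝ) < q := by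
      have : 0 < q := by omega
      exact_mod_cast this
    have h1 : circularChromaticNumber G ≤ ((3 * q - 1 : ℕ) : ℝ) / q := by
      refine csInf_le ⟨0, ?_⟩ ⟨3 * q - 1, q, by omega, by omega, ⟨c, hc⟩, rfl⟩
      rintro x ⟨p, q, _, _, _, rfl⟩
      positivity
    refine lt_of_le_of_lt h1 ?_
    rw [div_lt_iff₀ hq']
    have h2 : (3 * q - 1 : ℕ) < 3 * q := by omega
    have h3 : ((3 * q - 1 : ℕ) : ℝ) < ((3 * q : ℕ) : ℝ) := by exact_mod_cast h2
    push_cast at h3 ⊢
    exact h3

end Pool.Agent.R552.Circ
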