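import Pool.Agent.H671R2.ZDefs

/-!
# The circular chromatic number
-/

namespace Pool.Agent.R552.Circ

open Pool.Agent.NPC Pool.Agent.NPC.R671

/-- `c` is a `(p, q)`-colouring of `G`: its values are in `{0, ..., p - 1}` and
`q ≤ |c u - c v| ≤ p - q` for every edge `uv`. -/
def IsCircularColouring {V : Type} (G : SimpleGraph V) (p q : ℕ) (c : V → ℕ) : Prop :=
  (∀ v, c v < p) ∧
    ∀ u v, G.Adj u v → (q : ℤ) ≤ |(c u : ℤ) - c v| ∧ |(c u : ℤ) - c v| ≤ (p : ℤ) - q

/-- The circular chromatic number of `G`: the infimum of `p / q` over all pairs `p ≥ 2q ≥ 2` for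
which `G` has a `(p, q)`-colouring. -/
noncomputable def circularChromaticNumber {V : Type} (G : SimpleGraph V) : ℝ :=
  sInf {x : ℝ | ∃ p q : ℕ, 2 ≤ 2 * q ∧ 2 * q ≤ p ∧ (∃ c, IsCircularColouring G p q c) ∧
    x = (p : ℝ) / q}

/-- The decision problem: given the adjacency matrix of a graph, is its circular chromatic number
less than three? -/
def CircLtThree (M : List (List Bool)) : Prop :=
  ∃ (n : ℕ) (G : SimpleGraph (Fin n)), adjMatrix G = M ∧ circularChromaticNumber G < 3

end Pool.Agent.R552.Circ
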