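import Pool.Agent.R552.Circ.Char

/-!
# Short cycles, and the clause gadget
-/

namespace Pool.Agent.R552.Circ

/-- the step from one number to an adjacent one: `1` if the colour goes up, `-1` if it goes down -/
def d (x y : ℕ) : ℤ := if y % 3 = (x + 1) % 3 then 1 else -1

theorem d_edge {x y : ℕ} (h : rel x y) :
    ∃ t k : ℤ, d x y = 2 * t - 1 ∧ 0 ≤ t ∧ t ≤ 1 ∧ ((y % 3 : ℕ) : ℤ) - ((x % 3 : ℕ) : ℤ) = 2 * t - 1 + 3 * k ∧
      (t = 1 → x / 3 < y / 3) ∧ (t = 0 → y / 3 < x / 3) := by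
  obtain ⟨h1, h2, h3⟩ := h
  unfold d
  split_ifs with hc
  · refine ⟨1, (((y % 3 : ℕ) : ℤ) - ((x % 3 : ℕ) : ℤ) - 1) / 3, by norm_num, by norm_num, by norm_num, ?_,
      fun _ => h2 hc, by norm_num⟩
    omega
  · refine ⟨0, (((y % 3 : ℕ) : ℤ) - ((x % 3 : ℕ) : ℤ) + 1) / 3, by norm_num, by norm_num, by norm_num, ?_,
      by norm_num, fun _ => h3 (by omega)⟩
    omega

theorem d_anti {x y : ℕ} (h : rel x y) : d y x = - d x y := by
  obtain ⟨h1, h2, h3⟩ := h
  unfold d
  split_ifs <;> omega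

theorem five {a b c e f : ℕ} (h1 : rel a b) (h2 : rel b c) (h3 : rel c e) (h4 : rel e f)
    (h5 : rel f a) : d a b + d b c + d c e + d e f + d f a = 3 ∨
      d a b + d b c + d c e + d e f + d f a = -3 := by
  obtain ⟨t1, k1, e1, l1, u1, s1, p1, n1⟩ := d_edge h1
  obtain ⟨t2, k2, e2, l2, u2, s2, p2, n2⟩ := d_edge h2
  obtain ⟨t3, k3, e3, l3, u3, s3, p3, n3⟩ := d_edge h3
  obtain ⟨t4, k4, e4, l4, u4, s4, p4, n4⟩ := d_edge h4
  obtain ⟨t5, k5, e5, l5, u5, s5, p5, n5⟩ := d_edge h5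
  have hup : t1 + t2 + t3 + t4 + t5 ≤ 4 := by
    by_contra hc
    have := p1 (by omega)
    have := p2 (by omega)
    have := p3 (by omega)
    have := p4 (by omega)
    have := p5 (by omega)
    omega
  have hlo : 1 ≤ t1 + t2 + t3 + t4 + t5 := by
    by_contra hc
    have := n1 (by omega)
    have := n2 (by omega)
    have := n3 (by omega)
    have := n4 (by omega)
    have := n5 (by omega)
    omega
  rw [e1, e2, e3, e4, e5]
  omega

theorem six {a b c e f g : ℕ} (h1 : rel a b) (h2 : rel b c) (h3 : rel c e) (h4 : rel e f)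
    (h5 : rel f g) (h6 : rel g a) : d a b + d b c + d c e + d e f + d f g + d g a = 0 := by
  obtain ⟨t1, k1, e1, l1, u1, s1, p1, n1⟩ := d_edge h1
  obtain ⟨t2, k2, e2, l2, u2, s2, p2, n2⟩ := d_edge h2
  obtain ⟨t3, k3, e3, l3, u3, s3, p3, n3⟩ := d_edge h3
  obtain ⟨t4, k4, e4, l4, u4, s4, p4, n4⟩ := d_edge h4
  obtain ⟨t5, k5, e5, l5, u5, s5, p5, n5⟩ := d_edge h5
  obtain ⟨t6, k6, e6, l6, u6, s6, p6, n6⟩ := d_edge h6
  have hup : t1 + t2 + t3 + t4 + t5 + t6 ≤ 5 := by
    by_contra hc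
    have := p1 (by omega)
    have := p2 (by omega)
    have := p3 (by omega)
    have := p4 (by omega)
    have := p5 (by omega)
    have := p6 (by omega)
    omega
  have hlo : 1 ≤ t1 + t2 + t3 + t4 + t5 + t6 := by
    by_contra hc
    have := n1 (by omega)
    have := n2 (by omega)
    have := n3 (by omega)
    have := n4 (by omega)
    have := n5 (by omega)
    have := n6 (by omega)
    omega
  rw [e1, e2, e3, e4, e5, e6]
  omega

theorem nine {a b c e f g h i j : ℕ} (h1 : rel a b) (h2 : rel b c) (h3 : rel c e) (h4 : rel e f)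
    (h5 : rel f g) (h6 : rel g h) (h7 : rel h i) (h8 : rel i j) (h9 : rel j a) :
    d a b + d b c + d c e + d e f + d f g + d g h + d h i + d i j + d j a = 3 ∨
      d a b + d b c + d c e + d e f + d f g + d g h + d h i + d i j + d j a = -3 := by
  obtain ⟨t1, k1, e1, l1, u1, s1, p1, n1⟩ := d_edge h1
  obtain ⟨t2, k2, e2, l2, u2, s2, p2, n2⟩ := d_edge h2
  obtain ⟨t3, k3, e3, l3, u3, s3, p3, n3⟩ := d_edge h3
  obtain ⟨t4, k4, e4, l4, u4, s4, p4, n4⟩ := d_edge h4
  obtain ⟨t5, k5, e5, l5, u5, s5, p5, n5⟩ := d_edge h5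
  obtain ⟨t6, k6, e6, l6, u6, s6, p6, n6⟩ := d_edge h6
  obtain ⟨t7, k7, e7, l7, u7, s7, p7, n7⟩ := d_edge h7
  obtain ⟨t8, k8, e8, l8, u8, s8, p8, n8⟩ := d_edge h8
  obtain ⟨t9, k9, e9, l9, u9, s9, p9, n9⟩ := d_edge h9
  have hup : t1 + t2 + t3 + t4 + t5 + t6 + t7 + t8 + t9 ≤ 8 := by
    by_contra hc
    have := p1 (by omega)
    have := p2 (by omega)
    have := p3 (by omega)
    have := p4 (by omega)
    have := p5 (by omega)
    have := p6 (by omega)
    have := p7 (by omega)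
    have := p8 (by omega)
    have := p9 (by omega)
    omega
  have hlo : 1 ≤ t1 + t2 + t3 + t4 + t5 + t6 + t7 + t8 + t9 := by
    by_contra hc
    have := n1 (by omega)
    have := n2 (by omega)
    have := n3 (by omega)
    have := n4 (by omega)
    have := n5 (by omega)
    have := n6 (by omega)
    have := n7 (by omega)
    have := n8 (by omega)
    have := n9 (by omega)
    omega
  rw [e1, e2, e3, e4, e5, e6, e7, e8, e9]
  omega

/-- The edges of the part of the gadget at one literal: the centre of the variable is the path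
`c - m - e`. -/
structure Part (s q p r c m e : ℕ) : Prop where
  qp : rel q p
  rs : rel r s
  sq : rel s q
  qc : rel q c
  pe : rel p e
  re : rel r e
  cm : rel c m
  me : rel m e

/-- the sum around the pentagon `p - q - c - m - e` -/
def S (p q c m e : ℕ) : ℤ := d p q + d q c + d c m + d m e + d e p

theorem Part.five {s q p r c m e : ℕ} (h : Part s q p r c m e) :
    S p q c m e = 3 ∨ S p q c m e = -3 :=
  Circ.five (rel_symm h.qp) h.qc h.cm h.me (rel_symm h.pe)

/-- Two pentagons at the same centre have the same sum. -/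
theorem Part.same {s q p r s' q' p' r' c m e : ℕ} (h : Part s q p r c m e)
    (h' : Part s' q' p' r' c m e) : S p q c m e = S p' q' c m e := by
  have h1 := Circ.six (rel_symm h.pe) (rel_symm h.qp) h.qc (rel_symm h'.qc) h'.qp h'.pe
  have h2 := d_anti h'.qc
  have h3 := d_anti h'.qp
  have h4 := d_anti h'.pe
  unfold S
  omega

/-- The three sums at a clause are not all equal. -/
theorem clause_nae {o s0 q0 p0 r0 c0 m0 e0 s1 q1 p1 r1 c1 m1 e1 s2 q2 p2 r2 c2 m2 e2 : ℕ}
    (h0 : Part s0 q0 p0 r0 c0 m0 e0) (h1 : Part s1 q1 p1 r1 c1 m1 e1)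
    (h2 : Part s2 q2 p2 r2 c2 m2 e2) (o0 : rel o s0) (o1 : rel o s1) (o2 : rel o s2)
    (a0 : rel p0 s1) (a1 : rel p1 s2) (a2 : rel p2 s0) :
    ¬ (S p0 q0 c0 m0 e0 = S p1 q1 c1 m1 e1 ∧ S p1 q1 c1 m1 e1 = S p2 q2 c2 m2 e2) := by
  have key : ∀ {s q p r c m e s' : ℕ}, Part s q p r c m e → rel o s → rel o s' → rel p s' →
      d s q + d q p + d p s' + d s' o + d o s = - S p q c m e := by
    intro s q p r c m e s' h k1 k2 k3
    have x1 := six h.qc h.cm h.me (rel_symm h.re) h.rs h.sq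
    have x2 := six k3 (rel_symm k2) k1 (rel_symm h.rs) h.re (rel_symm h.pe)
    have y1 := d_anti h.qp
    have y2 := d_anti h.rs
    have y3 := d_anti h.re
    have y4 := d_anti h.pe
    unfold S
    omega
  have x0 := key h0 o0 o1 a0
  have x1 := key h1 o1 o2 a1
  have x2 := key h2 o2 o0 a2
  have x3 := nine h0.sq h0.qp a0 h1.sq h1.qp a1 h2.sq h2.qp a2
  have y0 := d_anti o0
  have y1 := d_anti o1
  have y2 := d_anti o2
  have z0 := h0.five
  have z1 := h1.five
  have z2 := h2.five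
  omega

end Pool.Agent.R552.Circ
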