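import Pool.Agent.R552.Circ.Char
import Pool.Agent.H671R2.OOF.NP

/-!
# Membership in NP
-/

namespace Pool.Agent.R552.Circ

open Pool.Agent.NPC Pool.Agent.NPC.R671 Pool.Agent.H671R2.Ord Pool.Agent.H671R2.OOF

/-- compatibility, as a boolean -/
def relB (x y : ℕ) : Bool :=
  !decide (x % 3 = y % 3) && ((!decide (y % 3 = (x + 1) % 3) || decide (x / 3 < y / 3)) &&
    (!decide (x % 3 = (y + 1) % 3) || decide (y / 3 < x / 3)))

theorem relB_iff (x y : ℕ) : relB x y = true ↔ rel x y := by
  unfold relB rel
  simp only [Bool.and_eq_true, Bool.not_eq_true', decide_eq_false_iff_not, Bool.or_eq_true,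
    decide_eq_true_eq]
  constructor
  · rintro ⟨h1, h2, h3⟩
    exact ⟨h1, fun h => h2.resolve_left (fun h' => h' h), fun h => h3.resolve_left (fun h' => h' h)⟩
  · rintro ⟨h1, h2, h3⟩
    refine ⟨h1, ?_, ?_⟩
    · by_cases h : y % 3 = (x + 1) % 3
      · exact Or.inr (h2 h)
      · exact Or.inl h
    · by_cases h : x % 3 = (y + 1) % 3
      · exact Or.inr (h3 h)
      · exact Or.inl h

/-- the check of all edges -/
def chkE (M : List (List Bool)) (l : List ℕ) : Bool :=
  (List.range M.length).all (fun i => (List.range M.length).all (fun j =>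
    !(me M i j) || relB (l.getD i 0) (l.getD j 0)))

/-- the verifier -/
def vf (x : List (List Bool) × List ℕ) : Bool :=
  wf x.1 && (decide (x.2.length = x.1.length) &&
    (x.2.all (fun a => decide (a ≤ 3 * x.1.length)) && chkE x.1 x.2))

theorem chkE_iff {n : ℕ} (G : SimpleGraph (Fin n)) (f : Fin n → ℕ) (l : List ℕ)
    (hl : ∀ i : Fin n, l.getD i 0 = f i) :
    chkE (adjMatrix G) l = true ↔ Num3 G f := by
  simp only [chkE, length_adjMatrix, List.all_eq_true, List.mem_range, Bool.or_eq_true,
    Bool.not_eq_true', relB_iff]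
  constructor
  · intro h u v huv
    have h1 := h u u.isLt v v.isLt
    rw [hl u, hl v] at h1
    rcases h1 with h1 | h1
    · rw [(me_adj G u v).2 huv] at h1
      exact absurd h1 (by simp)
    · exact h1
  · intro h i hi j hj
    have hi' := hl ⟨i, hi⟩
    have hj' := hl ⟨j, hj⟩
    simp only at hi' hj'
    rw [hi', hj']
    have hm := me_adj G ⟨i, hi⟩ ⟨j, hj⟩
    simp only at hm
    by_cases h1 : me (adjMatrix G) i j = true
    · exact Or.inr (h _ _ (hm.1 h1))
    · exact Or.inl (by simpa using h1)

theorem circ_iff_cert (M : List (List Bool)) : CircLtThree M ↔ ∃ w : List ℕ, vf (M, w) = true := by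
  constructor
  · rintro ⟨n, G, rfl, hc⟩
    obtain ⟨f, h1, h2⟩ := (circ_lt_three_iff G).1 hc
    rw [Fintype.card_fin] at h1
    refine ⟨List.ofFn f, ?_⟩
    simp only [vf, Bool.and_eq_true]
    refine ⟨(wf_iff _).2 ⟨n, G, rfl⟩, ?_, ?_, ?_⟩
    · simp [length_adjMatrix]
    · rw [List.all_eq_true]
      intro a ha
      rw [List.mem_ofFn] at ha
      obtain ⟨i, rfl⟩ := ha
      simpa [length_adjMatrix] using (h1 i).le
    · exact (chkE_iff G f _ (getD_ofFn f)).2 h2
  · rintro ⟨w, hw⟩
    simp only [vf, Bool.and_eq_true, decide_eq_true_eq, List.all_eq_true] at hw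
    obtain ⟨h1, h2, h3, h4⟩ := hw
    obtain ⟨n, G, rfl⟩ := (wf_iff M).1 h1
    rw [length_adjMatrix] at h2
    have hl : ∀ i : Fin n, (i : ℕ) < w.length := fun i => by rw [h2]; exact i.isLt
    have hf : ∀ i : Fin n, w.getD i 0 = (fun i : Fin n => w[(i : ℕ)]'(hl i)) i := by
      intro i
      rw [List.getD_eq_getElem?_getD, List.getElem?_eq_getElem (hl i)]
      rfl
    have h5 := (chkE_iff G _ w hf).1 h4
    refine ⟨n, G, rfl, (circ_lt_three_iff G).2 ?_⟩
    -- ranks can be bounded again, through circular colourings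
    obtain ⟨q, c, hq, hc⟩ := circ_of_num3 h5
    exact num3_of_circ hc hq (by omega)

attribute [local irreducible] me

theorem relB_poly {α : Type} [TEnc α] {x y : α → ℕ} (hx : Poly x) (hy : Poly y) :
    Poly (fun a => relB (x a) (y a)) := by
  unfold relB
  fun_prop

attribute [local fun_prop] relB_poly

theorem vf_poly : Poly vf := by
  unfold vf
  refine NPC.Poly.and (wf_poly.comp (by fun_prop)) (NPC.Poly.and ?_ (NPC.Poly.and ?_ ?_))
  · have h1 : Poly (fun x : List (List Bool) × List ℕ => x.2.length) :=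
      NPC.Poly.length (by fun_prop)
    have h2 : Poly (fun x : List (List Bool) × List ℕ => x.1.length) :=
      NPC.Poly.length (by fun_prop)
    exact NPC.Poly.dec_eq h1 h2
  · refine NPC.Poly.all (l := fun x : List (List Bool) × List ℕ => x.2)
      (p := fun x a => decide (a ≤ 3 * x.1.length)) (by fun_prop) ?_
    have h2 : Poly (fun x : (List (List Bool) × List ℕ) × ℕ => x.1.1.length) :=
      NPC.Poly.length (by fun_prop)
    fun_prop
  · unfold chkE
    refine all2_poly (α := List (List Bool) × List ℕ) (m := fun x => x.1.length)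
      (UPoly.length (by fun_prop)) (F := fun x i j =>
        !(me x.1 i j) || relB (x.2.getD i 0) (x.2.getD j 0)) ?_
    fun_prop

/-- certificates are short -/
theorem vf_short {M : List (List Bool)} {w : List ℕ} (h : vf (M, w) = true) :
    sz w ≤ (12 * Polynomial.X ^ 2 + 20 * Polynomial.X + 20 : Polynomial ℕ).eval (sz M) := by
  simp only [vf, Bool.and_eq_true, decide_eq_true_eq, List.all_eq_true] at h
  obtain ⟨_, h4, hlt, _⟩ := h
  have hsz : ∀ a ∈ w, sz a ≤ 12 * M.length + 4 := by
    intro a ha
    have h1 := sz_nat_le a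
    have h2 := Poly.size_le_self a
    have h3 := hlt a ha
    omega
  have h5 := sz_le_length_mul w _ hsz
  have h1 : M.length ≤ sz M := (length_lt_sz M).le
  simp only [Polynomial.eval_add, Polynomial.eval_mul, Polynomial.eval_pow, Polynomial.eval_X,
    Polynomial.eval_ofNat]
  rw [h4] at h5
  nlinarith

/-- **Deciding `χ_c(G) < 3` is in `NP`.** -/
theorem circ_inNPP : InNPP CircLtThree := by
  refine inNPP_of (R := vf) vf_poly (12 * Polynomial.X ^ 2 + 20 * Polynomial.X + 20) ?_
  intro M
  rw [circ_iff_cert]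
  exact exists_congr fun w => ⟨fun h => ⟨vf_short h, h⟩, fun h => h.2⟩

end Pool.Agent.R552.Circ
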