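import Pool.Agent.R552.Circ.Gadget
import Pool.Agent.R552.Circ.NP
import Pool.Agent.H648R3.WC.Nae

/-!
# The graph of a monotone not-all-equal formula
-/

namespace Pool.Agent.R552.Circ

open Pool.Agent.NPC Pool.Agent.NPC.R671 Pool.Agent.NPC.WC648

/-- labels of vertices: kind, clause, place in the clause, variable. The kinds `0, 1, 2, 3` are the
vertices `s, q, p, r` of an occurrence, `4, 5, 6` the path of a variable and `7` the middle of a
clause. -/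
abbrev Lab : Type := ℕ × ℕ × ℕ × NV

/-- adjacency of labels, one direction -/
def ad0 (a b : Lab) : Bool :=
  ((decide (a.2.1 = b.2.1) && decide (a.2.2.1 = b.2.2.1)) &&
    ((decide (a.1 = 1) && decide (b.1 = 2)) || ((decide (a.1 = 3) && decide (b.1 = 0)) ||
      (decide (a.1 = 0) && decide (b.1 = 1))))) ||
  ((decide (a.2.2.2 = b.2.2.2) &&
    ((decide (a.1 = 1) && decide (b.1 = 4)) || ((decide (a.1 = 2) && decide (b.1 = 6)) ||
      ((decide (a.1 = 3) && decide (b.1 = 6)) || ((decide (a.1 = 4) && decide (b.1 = 5)) ||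
        (decide (a.1 = 5) && decide (b.1 = 6))))))) ||
  (decide (a.2.1 = b.2.1) &&
    ((decide (a.1 = 7) && decide (b.1 = 0)) ||
      ((decide (a.1 = 2) && decide (b.1 = 0)) && decide (b.2.2.1 = (a.2.2.1 + 1) % 3)))))

/-- adjacency of labels -/
def ad (a b : Lab) : Bool := ad0 a b || ad0 b a

theorem ad_symm (a b : Lab) : ad a b = ad b a := by
  unfold ad
  exact Bool.or_comm _ _

theorem ad_irrefl (a : Lab) : ad a a = false := by
  rw [← Bool.not_eq_true]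
  simp only [ad, ad0, Bool.or_eq_true, Bool.and_eq_true, decide_eq_true_eq]
  omega

/-- the labels of one occurrence -/
def oc (j i : ℕ) (x : NV) : List Lab :=
  [(0, j, i, x), (1, j, i, x), (2, j, i, x), (3, j, i, x), (4, 0, 0, x), (5, 0, 0, x), (6, 0, 0, x)]

/-- the labels of one clause -/
def cl (c : NV × NV × NV) (j : ℕ) : List Lab :=
  (7, j, 0, (0, 0, false)) :: (oc j 0 c.1 ++ (oc j 1 c.2.1 ++ oc j 2 c.2.2))

/-- the labels -/
def vs (φ : List (NV × NV × NV)) : List Lab := φ.zipIdx.flatMap (fun t => cl t.1 t.2)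

/-- the graph of a formula -/
def gr (φ : List (NV × NV × NV)) : SimpleGraph (Fin (vs φ).length) :=
  listGraph (vs φ) ad ad_symm ad_irrefl

theorem mem_vs {φ : List (NV × NV × NV)} {z : Lab} :
    z ∈ vs φ ↔ ∃ c j, φ[j]? = some c ∧ z ∈ cl c j := by
  unfold vs
  rw [List.mem_flatMap]
  constructor
  · rintro ⟨⟨c, j⟩, h1, h2⟩
    exact ⟨c, j, List.mem_zipIdx_iff_getElem?.1 h1, h2⟩
  · rintro ⟨c, j, h1, h2⟩
    exact ⟨(c, j), List.mem_zipIdx_iff_getElem?.2 h1, h2⟩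

/-- the variable at a place of a clause -/
def vr (c : NV × NV × NV) (i : ℕ) : NV := if i = 0 then c.1 else if i = 1 then c.2.1 else c.2.2

/-! ### From an assignment to a colouring -/

/-- the level of an occurrence in its clause, given the values at this place and at the previous
one -/
def lvl (b b' : Bool) : ℕ := (if b then 1 else 0) + (if b' then 0 else 1)

/-- the colour and the rank of the vertices of an occurrence: `b` is the value at this place, `L`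
the level of this place and `L'` the level of the next place -/
def fo (k : ℕ) (b : Bool) (L L' : ℕ) : ℕ :=
  if b then
    (if k = 0 then 3 * (10 * L + 5) + 0 else if k = 1 then 3 * (10 * L' + 7) + 2 else
      if k = 2 then 3 * (10 * L' + 6) + 1 else 3 * (10 * L + 8) + 1)
  else
    (if k = 0 then 3 * (10 * L + 5) + 0 else if k = 1 then 3 * (10 * L + 6) + 1 else
      if k = 2 then 3 * (10 * L + 7) + 2 else 3 * (10 * L + 4) + 2)

/-- the colour and the rank of the vertices of the path of a variable -/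
def fc (k : ℕ) (b : Bool) : ℕ :=
  if b then (if k = 4 then 3 * 100 + 0 else if k = 5 then 3 * 101 + 1 else 3 * 102 + 2)
  else (if k = 4 then 3 * 102 + 2 else if k = 5 then 3 * 101 + 1 else 3 * 100 + 0)

/-- the value at a place of a clause -/
def bv (φ : List (NV × NV × NV)) (τ : NV → Bool) (j i : ℕ) : Bool :=
  τ (vr (φ.getD j ((0, 0, false), (0, 0, false), (0, 0, false))) (i % 3))

/-- the level of a place of a clause -/
def lv' (φ : List (NV × NV × NV)) (τ : NV → Bool) (j i : ℕ) : ℕ :=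
  lvl (bv φ τ j i) (bv φ τ j (i + 2))

/-- the colouring -/
def fl (φ : List (NV × NV × NV)) (τ : NV → Bool) (a : Lab) : ℕ :=
  if a.1 < 4 then fo a.1 (bv φ τ a.2.1 a.2.2.1) (lv' φ τ a.2.1 a.2.2.1) (lv' φ τ a.2.1 (a.2.2.1 + 1))
  else if a.1 < 7 then fc a.1 (τ a.2.2.2)
  else 3 * 90 + 1

/-- what we need about the labels in the graph -/
theorem vs_prop {φ : List (NV × NV × NV)} (τ : NV → Bool)
    (hτ : ∀ t ∈ φ, ¬ (τ t.1 = τ t.2.1 ∧ τ t.2.1 = τ t.2.2)) {a : Lab} (ha : a ∈ vs φ)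
    (hk : a.1 < 4) : a.2.2.1 < 3 ∧ bv φ τ a.2.1 a.2.2.1 = τ a.2.2.2 ∧
      ¬ (bv φ τ a.2.1 0 = bv φ τ a.2.1 1 ∧ bv φ τ a.2.1 1 = bv φ τ a.2.1 2) := by
  obtain ⟨c, j, h1, h2⟩ := mem_vs.1 ha
  have hc := hτ c (List.mem_of_getElem? h1)
  have e : ∀ i, bv φ τ j i = τ (vr c (i % 3)) := by
    intro i
    unfold bv
    rw [List.getD_eq_getElem?_getD, h1]
    rfl
  have e0 : bv φ τ j 0 = τ c.1 := by rw [e]; rfl
  have e1 : bv φ τ j 1 = τ c.2.1 := by rw [e]; rfl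
  have e2 : bv φ τ j 2 = τ c.2.2 := by rw [e]; rfl
  simp only [cl, oc, List.mem_cons, List.mem_append, List.not_mem_nil, or_false] at h2
  rcases h2 with rfl | ((rfl | rfl | rfl | rfl | rfl | rfl | rfl) |
    (rfl | rfl | rfl | rfl | rfl | rfl | rfl) | (rfl | rfl | rfl | rfl | rfl | rfl | rfl)) <;>
    first
    | (exfalso; simp at hk; done)
    | (refine ⟨by norm_num, ?_, ?_⟩
       · first | exact e0 | exact e1 | exact e2
       · change ¬ (bv φ τ j 0 = bv φ τ j 1 ∧ bv φ τ j 1 = bv φ τ j 2)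
         rw [e0, e1, e2]; exact hc)

/-- the relation, as a boolean -/
theorem rel_of_relB {x y : ℕ} (h : relB x y = true) : rel x y := (relB_iff x y).1 h

theorem tab_occ : ∀ b0 b1 b2 : Bool, ¬ (b0 = b1 ∧ b1 = b2) →
    relB (fo 1 b0 (lvl b0 b2) (lvl b1 b0)) (fo 2 b0 (lvl b0 b2) (lvl b1 b0)) = true ∧
    relB (fo 3 b0 (lvl b0 b2) (lvl b1 b0)) (fo 0 b0 (lvl b0 b2) (lvl b1 b0)) = true ∧
    relB (fo 0 b0 (lvl b0 b2) (lvl b1 b0)) (fo 1 b0 (lvl b0 b2) (lvl b1 b0)) = true ∧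
    relB (fo 1 b0 (lvl b0 b2) (lvl b1 b0)) (fc 4 b0) = true ∧
    relB (fo 2 b0 (lvl b0 b2) (lvl b1 b0)) (fc 6 b0) = true ∧
    relB (fo 3 b0 (lvl b0 b2) (lvl b1 b0)) (fc 6 b0) = true ∧
    relB (3 * 90 + 1) (fo 0 b0 (lvl b0 b2) (lvl b1 b0)) = true ∧
    relB (fo 2 b0 (lvl b0 b2) (lvl b1 b0)) (fo 0 b1 (lvl b1 b0) (lvl b2 b1)) = true := by
  decide

theorem tab_cen : ∀ b : Bool, relB (fc 4 b) (fc 5 b) = true ∧ relB (fc 5 b) (fc 6 b) = true := by
  decide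

/-- the table at an occurrence -/
theorem tab_at {φ : List (NV × NV × NV)} {τ : NV → Bool} {j i : ℕ} (hi : i < 3)
    (h : ¬ (bv φ τ j 0 = bv φ τ j 1 ∧ bv φ τ j 1 = bv φ τ j 2)) :
    ∃ b1 b2 : Bool, ¬ (bv φ τ j i = b1 ∧ b1 = b2) ∧
      lv' φ τ j i = lvl (bv φ τ j i) b2 ∧ lv' φ τ j (i + 1) = lvl b1 (bv φ τ j i) ∧
      bv φ τ j ((i + 1) % 3) = b1 ∧ lv' φ τ j ((i + 1) % 3) = lvl b1 (bv φ τ j i) ∧
      lv' φ τ j ((i + 1) % 3 + 1) = lvl b2 b1 := by
  have hp : ∀ k, bv φ τ j (k + 3) = bv φ τ j k := by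
    intro k
    unfold bv
    rw [Nat.add_mod_right]
  have e3 : bv φ τ j 3 = bv φ τ j 0 := hp 0
  have e4 : bv φ τ j 4 = bv φ τ j 1 := hp 1
  have e5 : bv φ τ j 5 = bv φ τ j 2 := hp 2
  have e : i = 0 ∨ i = 1 ∨ i = 2 := by omega
  rcases e with rfl | rfl | rfl
  · exact ⟨bv φ τ j 1, bv φ τ j 2, h, rfl, by unfold lv'; rw [e3], rfl, by
      change lvl (bv φ τ j 1) (bv φ τ j 3) = _; rw [e3], by
      change lvl (bv φ τ j 2) (bv φ τ j 4) = _; rw [e4]⟩
  · exact ⟨bv φ τ j 2, bv φ τ j 0, fun h' => h ⟨(h'.1.trans h'.2).symm, h'.1⟩, by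
      change lvl (bv φ τ j 1) (bv φ τ j 3) = _; rw [e3], by
      change lvl (bv φ τ j 2) (bv φ τ j 4) = _; rw [e4], rfl, by
      change lvl (bv φ τ j 2) (bv φ τ j 4) = _; rw [e4], by
      change lvl (bv φ τ j 3) (bv φ τ j 5) = _; rw [e3, e5]⟩
  · exact ⟨bv φ τ j 0, bv φ τ j 1, fun h' => h ⟨h'.2, (h'.1.trans h'.2).symm⟩, by
      change lvl (bv φ τ j 2) (bv φ τ j 4) = _; rw [e4], by
      change lvl (bv φ τ j 3) (bv φ τ j 5) = _; rw [e3, e5], rfl, by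
      change lvl (bv φ τ j 0) (bv φ τ j 2) = _; rfl, by
      change lvl (bv φ τ j 1) (bv φ τ j 3) = _; rw [e3]⟩

theorem complete0 {φ : List (NV × NV × NV)} (τ : NV → Bool)
    (hτ : ∀ t ∈ φ, ¬ (τ t.1 = τ t.2.1 ∧ τ t.2.1 = τ t.2.2)) {a b : Lab} (ha : a ∈ vs φ)
    (hb : b ∈ vs φ) (h : ad0 a b = true) : rel (fl φ τ a) (fl φ τ b) := by
  obtain ⟨ka, ja, ia, xa⟩ := a
  obtain ⟨kb, jb, ib, xb⟩ := b
  have pa := fun hk => vs_prop τ hτ ha hk
  have pb := fun hk => vs_prop τ hτ hb hk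
  simp only at pa pb
  simp only [ad0, Bool.or_eq_true, Bool.and_eq_true, decide_eq_true_eq] at h
  apply rel_of_relB
  rcases h with ⟨⟨rfl, rfl⟩, (⟨rfl, rfl⟩ | ⟨rfl, rfl⟩ | ⟨rfl, rfl⟩)⟩ |
    ⟨rfl, (⟨rfl, rfl⟩ | ⟨rfl, rfl⟩ | ⟨rfl, rfl⟩ | ⟨rfl, rfl⟩ | ⟨rfl, rfl⟩)⟩ |
    ⟨rfl, (⟨rfl, rfl⟩ | ⟨⟨rfl, rfl⟩, rfl⟩)⟩
  · obtain ⟨p1, p2, p3⟩ := pa (by norm_num)
    obtain ⟨b1, b2, q1, q2, q3, q4, q5, q6⟩ := tab_at p1 p3
    simp only [fl]
    norm_num
    rw [q2, q3]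
    exact (tab_occ _ _ _ q1).1
  · obtain ⟨p1, p2, p3⟩ := pa (by norm_num)
    obtain ⟨b1, b2, q1, q2, q3, q4, q5, q6⟩ := tab_at p1 p3
    simp only [fl]
    norm_num
    rw [q2, q3]
    exact (tab_occ _ _ _ q1).2.1
  · obtain ⟨p1, p2, p3⟩ := pa (by norm_num)
    obtain ⟨b1, b2, q1, q2, q3, q4, q5, q6⟩ := tab_at p1 p3
    simp only [fl]
    norm_num
    rw [q2, q3]
    exact (tab_occ _ _ _ q1).2.2.1
  · obtain ⟨p1, p2, p3⟩ := pa (by norm_num)
    obtain ⟨b1, b2, q1, q2, q3, q4, q5, q6⟩ := tab_at p1 p3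
    simp only [fl]
    norm_num
    rw [q2, q3, ← p2]
    exact (tab_occ _ _ _ q1).2.2.2.1
  · obtain ⟨p1, p2, p3⟩ := pa (by norm_num)
    obtain ⟨b1, b2, q1, q2, q3, q4, q5, q6⟩ := tab_at p1 p3
    simp only [fl]
    norm_num
    rw [q2, q3, ← p2]
    exact (tab_occ _ _ _ q1).2.2.2.2.1
  · obtain ⟨p1, p2, p3⟩ := pa (by norm_num)
    obtain ⟨b1, b2, q1, q2, q3, q4, q5, q6⟩ := tab_at p1 p3
    simp only [fl]
    norm_num
    rw [q2, q3, ← p2]
    exact (tab_occ _ _ _ q1).2.2.2.2.2.1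
  · simp only [fl]
    norm_num
    exact (tab_cen _).1
  · simp only [fl]
    norm_num
    exact (tab_cen _).2
  · obtain ⟨p1, p2, p3⟩ := pb (by norm_num)
    obtain ⟨b1, b2, q1, q2, q3, q4, q5, q6⟩ := tab_at p1 p3
    simp only [fl]
    norm_num
    rw [q2, q3]
    exact (tab_occ _ _ _ q1).2.2.2.2.2.2.1
  · obtain ⟨p1, p2, p3⟩ := pa (by norm_num)
    obtain ⟨b1, b2, q1, q2, q3, q4, q5, q6⟩ := tab_at p1 p3
    simp only [fl]
    norm_num
    rw [q2, q3, q4, q5, q6]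
    exact (tab_occ _ _ _ q1).2.2.2.2.2.2.2

theorem complete {φ : List (NV × NV × NV)} (h : NAE φ) : ∃ f, Num3 (gr φ) f := by
  obtain ⟨τ, hτ⟩ := h
  refine ⟨fun i => fl φ τ (vs φ)[i], fun u v huv => ?_⟩
  have huv' : ad (vs φ)[u] (vs φ)[v] = true := huv
  rw [ad, Bool.or_eq_true] at huv'
  rcases huv' with h | h
  · exact complete0 τ hτ (List.getElem_mem _) (List.getElem_mem _) h
  · exact rel_symm (complete0 τ hτ (List.getElem_mem _) (List.getElem_mem _) h)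

/-! ### From a colouring to an assignment -/

theorem part_of {φ : List (NV × NV × NV)} {g : Lab → ℕ}
    (hg : ∀ a ∈ vs φ, ∀ b ∈ vs φ, ad0 a b = true → rel (g a) (g b)) {j i : ℕ} {x : NV}
    (h : ∀ a ∈ oc j i x, a ∈ vs φ) :
    Part (g (0, j, i, x)) (g (1, j, i, x)) (g (2, j, i, x)) (g (3, j, i, x)) (g (4, 0, 0, x))
      (g (5, 0, 0, x)) (g (6, 0, 0, x)) := by
  constructor <;> refine hg _ (h _ ?_) _ (h _ ?_) ?_ <;> simp [oc, ad0]

theorem sound {φ : List (NV × NV × NV)} {f : Fin (vs φ).length → ℕ} (hf : Num3 (gr φ) f) :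
    NAE φ := by
  classical
  -- a colouring of the labels
  have hidx : ∀ a : Lab, ∃ i : Option (Fin (vs φ).length), ∀ ha : a ∈ vs φ,
      ∃ k, i = some k ∧ (vs φ)[k] = a := by
    intro a
    by_cases ha : a ∈ vs φ
    · obtain ⟨k, hk, hk'⟩ := List.getElem_of_mem ha
      exact ⟨some ⟨k, hk⟩, fun _ => ⟨_, rfl, hk'⟩⟩
    · exact ⟨none, fun h => absurd h ha⟩
  choose idx hidx using hidx
  let g : Lab → ℕ := fun a => match idx a with | some k => f k | none => 0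
  have hg : ∀ a ∈ vs φ, ∀ b ∈ vs φ, ad0 a b = true → rel (g a) (g b) := by
    intro a ha b hb hab
    obtain ⟨k, h1, h2⟩ := hidx a ha
    obtain ⟨l, h3, h4⟩ := hidx b hb
    simp only [g, h1, h3]
    apply hf
    change ad (vs φ)[k] (vs φ)[l] = true
    rw [h2, h4, ad, hab, Bool.true_or]
  -- the sum at an occurrence
  let Sg : ℕ → ℕ → NV → ℤ := fun j i x => S (g (2, j, i, x)) (g (1, j, i, x)) (g (4, 0, 0, x))
    (g (5, 0, 0, x)) (g (6, 0, 0, x))
  have hsame : ∀ j i j' i' x, (∀ a ∈ oc j i x, a ∈ vs φ) → (∀ a ∈ oc j' i' x, a ∈ vs φ) →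
      Sg j i x = Sg j' i' x := fun j i j' i' x h h' => (part_of hg h).same (part_of hg h')
  refine ⟨fun x => decide (∃ j i, (∀ a ∈ oc j i x, a ∈ vs φ) ∧ Sg j i x = 3), fun c hc => ?_⟩
  obtain ⟨j, hj⟩ := List.getElem?_of_mem hc
  have hcl : ∀ a ∈ cl c j, a ∈ vs φ := fun a ha => mem_vs.2 ⟨c, j, hj, ha⟩
  have h0 : ∀ a ∈ oc j 0 c.1, a ∈ vs φ := fun a ha => hcl a (by simp [cl, ha])
  have h1 : ∀ a ∈ oc j 1 c.2.1, a ∈ vs φ := fun a ha => hcl a (by simp [cl, ha])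
  have h2 : ∀ a ∈ oc j 2 c.2.2, a ∈ vs φ := fun a ha => hcl a (by simp [cl, ha])
  have ho : ((7, j, 0, (0, 0, false)) : Lab) ∈ vs φ := hcl _ (by simp [cl])
  have hval : ∀ i x, (∀ a ∈ oc j i x, a ∈ vs φ) →
      (decide (∃ j i, (∀ a ∈ oc j i x, a ∈ vs φ) ∧ Sg j i x = 3) = decide (Sg j i x = 3)) := by
    intro i x h
    rw [decide_eq_decide]
    constructor
    · rintro ⟨j', i', h3, h4⟩
      rw [hsame j i j' i' x h h3]
      exact h4
    · intro h3
      exact ⟨j, i, h, h3⟩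
  have e0 := hval 0 c.1 h0
  have e1 := hval 1 c.2.1 h1
  have e2 := hval 2 c.2.2 h2
  beta_reduce
  rw [e0, e1, e2]
  have m : ∀ k i x, (∀ a ∈ oc j i x, a ∈ vs φ) → k < 4 → ((k, j, i, x) : Lab) ∈ vs φ := by
    intro k i x h hk
    apply h
    have e : k = 0 ∨ k = 1 ∨ k = 2 ∨ k = 3 := by omega
    rcases e with rfl | rfl | rfl | rfl <;> simp [oc]
  have key := clause_nae (part_of hg h0) (part_of hg h1) (part_of hg h2)
    (hg _ ho _ (m 0 0 _ h0 (by norm_num)) (by simp [ad0]))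
    (hg _ ho _ (m 0 1 _ h1 (by norm_num)) (by simp [ad0]))
    (hg _ ho _ (m 0 2 _ h2 (by norm_num)) (by simp [ad0]))
    (hg _ (m 2 0 _ h0 (by norm_num)) _ (m 0 1 _ h1 (by norm_num)) (by simp [ad0]))
    (hg _ (m 2 1 _ h1 (by norm_num)) _ (m 0 2 _ h2 (by norm_num)) (by simp [ad0]))
    (hg _ (m 2 2 _ h2 (by norm_num)) _ (m 0 0 _ h0 (by norm_num)) (by simp [ad0]))
  have f0 : Sg j 0 c.1 = 3 ∨ Sg j 0 c.1 = -3 := (part_of hg h0).five
  have f1 : Sg j 1 c.2.1 = 3 ∨ Sg j 1 c.2.1 = -3 := (part_of hg h1).five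
  have f2 : Sg j 2 c.2.2 = 3 ∨ Sg j 2 c.2.2 = -3 := (part_of hg h2).five
  change ¬ (Sg j 0 c.1 = Sg j 1 c.2.1 ∧ Sg j 1 c.2.1 = Sg j 2 c.2.2) at key
  rintro ⟨k1, k2⟩
  rw [decide_eq_decide] at k1 k2
  apply key
  omega

theorem gr_correct (φ : List (NV × NV × NV)) : NAE φ ↔ circularChromaticNumber (gr φ) < 3 := by
  rw [circ_lt_three_iff]
  constructor
  · intro h
    obtain ⟨f, hf⟩ := complete h
    obtain ⟨q, c, hq, hc⟩ := circ_of_num3 hf
    exact num3_of_circ hc hq (by omega)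
  · rintro ⟨f, _, hf⟩
    exact sound hf

/-! ### Polynomial time -/

theorem ad0_poly {α : Type} [TEnc α] {a b : α → Lab} (ha : Poly a) (hb : Poly b) :
    Poly (fun x => ad0 (a x) (b x)) := by
  unfold ad0
  fun_prop

theorem vs_poly : Poly vs := by
  unfold vs cl oc
  fun_prop

theorem gr_poly : Poly (fun φ : List (NV × NV × NV) => adjMatrix (gr φ)) := by
  have h1 : ∀ φ : List (NV × NV × NV), adjMatrix (gr φ) =
      (vs φ).map (fun u => (vs φ).map (fun w => ad u w)) :=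
    fun φ => adjMatrix_listGraph _ _ _ _
  have h2 : Poly (fun φ : List (NV × NV × NV) =>
      (vs φ).map (fun u => (vs φ).map (fun w => ad u w))) := by
    refine NPC.Poly.map (l := vs) (F := fun φ u => (vs φ).map (fun w => ad u w)) vs_poly ?_
    refine NPC.Poly.map (l := fun x : List (NV × NV × NV) × Lab => vs x.1)
      (F := fun x w => ad x.2 w) (vs_poly.comp (NPC.Poly.fst NPC.Poly.id)) ?_
    unfold ad
    exact NPC.Poly.or (ad0_poly (by fun_prop) (by fun_prop)) (ad0_poly (by fun_prop) (by fun_prop))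
  exact h2.congr fun φ => (h1 φ).symm

/-- **Deciding `χ_c(G) < 3` is `NP`-hard.** -/
theorem circ_npHard : NPHardP CircLtThree := by
  intro L hL
  obtain ⟨g, hg, hgL⟩ := hardI_NAE L hL
  refine ⟨fun w => bits (adjMatrix (gr (g w))), PC.toPolyTime_bits gr_poly g hg, fun w => ?_⟩
  rw [bits_mem_lang, hgL w, gr_correct]
  constructor
  · intro h3
    exact ⟨_, _, rfl, h3⟩
  · rintro ⟨n', G', h3, h4⟩
    have h5 : n' = (vs (g w)).length := by
      have := congrArg List.length h3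
      simpa [adjMatrix] using this
    subst h5
    rw [← adjMatrix_inj h3]
    exact h4

end Pool.Agent.R552.Circ
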